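import Pool.Agent.Run7.h198.QI.Defs

/-!
# Project QI (helper198), piece NUM (helper354)
-/

set_option autoImplicit false

namespace Run7.h354.QI

open Pool.Agent.Run7.h198.QI

theorem t_NUM : S_NUM := by
  intro n r hr hn
  have h1 : ((n + 1) / 2 + 1 - (r - 1)) ^ (r - 1) ≤ ((n + 1) / 2).descFactorial (r - 1) :=
    Nat.pow_sub_le_descFactorial _ _
  rw [Nat.descFactorial_eq_factorial_mul_choose] at h1
  have h2 : n ≤ 4 * ((n + 1) / 2 + 1 - (r - 1)) := by omega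
  calc n ^ (r - 1) ≤ (4 * ((n + 1) / 2 + 1 - (r - 1))) ^ (r - 1) := Nat.pow_le_pow_left h2 _
    _ = 4 ^ (r - 1) * ((n + 1) / 2 + 1 - (r - 1)) ^ (r - 1) := mul_pow _ _ _
    _ ≤ 4 ^ (r - 1) * ((r - 1).factorial * ((n + 1) / 2).choose (r - 1)) :=
        Nat.mul_le_mul_left _ h1
    _ = 4 ^ (r - 1) * (r - 1).factorial * ((n + 1) / 2).choose (r - 1) := by rw [mul_assoc]

end Run7.h354.QI
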